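import Pool.Agent.HamChrom.D3.Fam

set_option autoImplicit false

namespace Pool.Agent.HamChrom.D3

open Pool.Agent.HamChrom

def certA0 : Cert := ⟨[1], 2 ^ 61, [
  ((.nu 0), [⟨0, 19, [577713920]⟩]),
  ((.nu 1), [⟨0, 0, [19202048, 375816192, 721932288, 393224192, 27906048]⟩, ⟨2, 0, [1718016, 1833795584, 9247666176, 10689961984, 3852087296]⟩, ⟨2, 1, [20454623488, 77945372672, 107642093568, 65577418752, 14848360448]⟩]),
  ((.nu 16), [⟨1, 1, [3960012800, 11767918080, 9705626880, 1102978560]⟩, ⟨1, 8, [5136697600, 24253944320, 40077894400, 29096174080, 6763069440]⟩, ⟨1, 64, [17693671424, 68024029696, 99749851904, 65046872576, 14832635904]⟩, ⟨1, 72, [1718016, 6872064, 10308096, 6872064, 2168918016]⟩, ⟨1, 73, [6313738240, 24855073280, 38218248960, 25970803200, 5499146240]⟩]),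
  ((.nu 2), [⟨0, 0, [12067878656, 42404347904, 58453712896, 35655041024, 8115511296]⟩, ⟨3, 0, [5823973632, 23640997888, 32331210752, 19346178048, 4254277632]⟩]),
  ((.nu 3), [⟨0, 0, [5140171008, 21184643072, 29246619648, 17810849792, 4030988288]⟩]),
  ((.nu 4), [⟨0, 0, [509083648, 5914755072, 14692220928, 13676511232, 4389961728]⟩, ⟨0, 1, [6823856384, 33922318336, 57516765184, 42872856576, 11876839424]⟩, ⟨0, 3, [8999192832, 35775971328, 49596547072, 30172807168, 6775324672]⟩, ⟨0, 16, [21042298880, 77990461440, 107715133440, 65628078080, 14861107200]⟩]),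
  ((.nu 5), [⟨0, 0, [2870003968, 13969129472, 21221081088, 14325645312, 3625975808]⟩, ⟨0, 1, [4967001600, 14123008000, 19499581440, 11876433920, 2688286720]⟩]),
  ((.nu 6), [⟨0, 0, [6733903616, 23454285824, 33425719296, 21113339904, 4985716736]⟩])]⟩

theorem checkA0 : Checked par fams famA true certA0 :=
  ⟨by decide +kernel, by decide +kernel, by decide +kernel⟩

end Pool.Agent.HamChrom.D3
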