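import Pool.Agent.HamChrom.D3.Fam

set_option autoImplicit false

namespace Pool.Agent.HamChrom.D3

open Pool.Agent.HamChrom

def certH0 : Cert := ⟨[1], 2 ^ 60, [
  ((.nu 0), [⟨0, 1, [3681302016, 13899782400, 19538012416, 12101884416, 2782352896]⟩, ⟨2, 0, [1688455680, 7176857344, 11473360640, 8169973248, 2185013760]⟩]),
  ((.nu 16), [⟨1, 8, [6486504960, 27915704576, 44868020480, 31934945792, 8496125440]⟩, ⟨1, 9, [6089932800, 25006080000, 38495539200, 26332569600, 6753177600]⟩, ⟨1, 64, [9217952256, 36041631488, 52789430016, 34325775872, 8360024576]⟩, ⟨1, 72, [6844121088, 27579154432, 41660551168, 27960123392, 7034605568]⟩]),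
  ((.nu 2), [⟨0, 0, [8441036800, 32078561280, 45484605440, 28497674240, 6650593280]⟩, ⟨0, 1, [3480472064, 14209918720, 21820446464, 14933026304, 3842025984]⟩, ⟨3, 0, [5357975040, 23189903616, 37453195520, 26768579072, 7147312640]⟩]),
  ((.nu 4), [⟨0, 0, [8298430464, 35041837056, 55439785984, 38947782656, 10251403264]⟩, ⟨0, 1, [5712628224, 22174508800, 32202905344, 20732798464, 4991773184]⟩, ⟨0, 2, [1717760, 6871296, 10307840, 6871552, 1717760]⟩, ⟨0, 3, [742340096, 6040541440, 13781965056, 12411664896, 3927901696]⟩, ⟨0, 18, [13291080192, 52893001472, 78827665152, 52140647936, 12914903552]⟩]),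
  ((.nu 6), [⟨0, 1, [4819255296, 20771241984, 33398194176, 23759683584, 6313476096]⟩])]⟩

theorem checkH0 : Checked par fams famH true certH0 :=
  ⟨by decide +kernel, by decide +kernel, by decide +kernel⟩

end Pool.Agent.HamChrom.D3
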