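import Pool.Agent.HamChrom.D3.Fam

set_option autoImplicit false

namespace Pool.Agent.HamChrom.D3

open Pool.Agent.HamChrom

def certP0 : Cert := ⟨[1], 2 ^ 60, [
  ((.nu 0), [⟨0, 0, [13687062528, 53669527552, 78886207488, 51512082432, 12608339968]⟩]),
  ((.nu 1), [⟨0, 2, [11005933312, 40598001920, 55966369792, 34162481920, 7788176896]⟩, ⟨2, 0, [43737073920, 174057826048, 259543070720, 171860944128, 42638629376]⟩]),
  ((.nu 16), [⟨1, 0, [44792662272, 178210547456, 265659820032, 175858631936, 43616700928]⟩, ⟨1, 8, [1718016, 6871296, 10295296, 6863616, 1717760]⟩]),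
  ((.nu 4), [⟨0, 0, [27353743360, 107144314880, 157418721280, 102819471360, 25191321600]⟩, ⟨0, 2, [13707444224, 53864267776, 79239901184, 51716775936, 12633698304]⟩]),
  ((.nu 5), [⟨0, 0, [13703839744, 53736636416, 78986870784, 51579191296, 12625117184]⟩])]⟩

theorem checkP0 : Checked par fams famP true certP0 :=
  ⟨by decide +kernel, by decide +kernel, by decide +kernel⟩

end Pool.Agent.HamChrom.D3
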